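import Mathlib
import Pool.Agent.R747.IsoCircles
import Pool.Agent.R747.IsoExample

/-!
An analytic surface with two isotropic circles through each point whose top views are neither
bitangent to a cyclic nor contained in two pencils of circles.
-/

namespace Pool.Agent.Results.MP_c33e78_gt.MixedTopViews

open Pool.Agent.R747

theorem result : ∃ (D : Set (ℝ × ℝ)) (σ : ℝ × ℝ → ℝ × ℝ × ℝ) (A : ParabolaData) (B : EllipseData),
    IsAnalyticSurface D σ ∧ HypothesisH D σ A B ∧ ¬AlternativeA D A B ∧ ¬AlternativeB D A B :=
  ⟨Hd, sg, pdat, edat, isAnalyticSurface_sg, hypothesisH, not_A, not_B⟩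

end Pool.Agent.Results.MP_c33e78_gt.MixedTopViews
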